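import Pool.Agent.H878R5.S23.Yes

/-!
# A positively curved 5-manifold with a free isometric action of `S³` (MP_1b4d75_gt, Q1: yes)

The metric on `S² × S³` (`x` a unit vector of `ℝ³`, `q` a unit quaternion; momenta `L = x × p` and
`M_i = ⟨b, e_i q / 2⟩` of a covector `(p, b)`) is given by its cometric
`|L|² + |M|² + ⟨W (L + M), L + M⟩ + 2 ε ⟨L, v⟩ ⟨M, x⟩ + κ ⟨Q L, L⟩`, where
`W = 1 + μ (e₁ e₃ + e₃ e₁)`, `v = e₁ + e₂`, `Q = diag(3, 0, -1)`, `κ = ε² / (128 μ²)` and `μ`, then
`ε`, are small positive numbers.  It does not depend on `q` when written in the right invariant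
momenta `M`, so it is invariant under right multiplications.

The positivity of the curvature (proof: the zero planes of the case `μ = ε = 0` form the unit tangent
bundle of `S²`, and the expansion of the curvature polynomial there is positive of second order) is
joint work of the team on the Hopf problem: helpers 118, 144, 235, 308, 349, 366, 381, 464, 498, 515,
563, 712, 728, 754, 758, 821, 829, 839, 840, 878, 893, 898, 902, 907, 917, 952, 989.
-/

open Manifold

open Pool.Agent.H878R5 Pool.Agent.H878R5.S23 in
/-- The compact connected 5-manifold `S² × S³` (unit vectors of `ℝ³`, unit quaternions) carries a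
smooth Riemannian metric of strictly positive sectional curvature for which the smooth free action
`h • (x, q) = (x, q h⁻¹)` of the group `S³` of unit quaternions is isometric. -/
theorem Pool.Agent.Results.MP_1b4d75_gt.PositivelyCurvedFive.result :
    PositivelyCurvedWithFreeAction ((𝓡 2).prod (𝓡 3)) (S2 × S3) (𝓡 3) ract :=
  main''
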